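import Pool.Agent.RCM.Stmts

/-!
# LBA of the squad RCM: the lower bound `3 z / 2` for all pairs of matroids
-/

set_option autoImplicit false

namespace Pool.Agent.RCM.H16

open Set

universe u

theorem lba (hFRJ : FrjStmt.{u}) (hONE : OneStmt.{u}) (hEXZ : ExzStmt.{u}) (hPLC : PlcStmt.{u})
    (hRCH : RchStmt.{u}) (hRMV : RmvStmt.{u}) : LbaStmt.{u} := by
  intro E K _ _ M N κ s hC t P X T z hMx
  induction z using Nat.strong_induction_on generalizing P T with
  | _ z ih =>
    intro hSt hUn hs
    show 3 * z / 2 ≤ (T \ Sta M N κ P X T).ncard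
    -- RMV in the form `z ≤ h`
    have hrmv : ∀ (P : Set E) (T : Set E) (z : ℕ), St M N κ P X t T → (Un κ X T).Nonempty →
        t + P.ncard + z ≤ s → z ≤ (T \ Sta M N κ P X T).ncard := by
      intro P T z hSt hUn hs
      obtain ⟨c, hc1, hc2⟩ := hUn
      obtain ⟨h1, h2⟩ := hRMV E K M N κ s t P X T c z hC hMx hSt hc1 hc2 hs
      exact h1.trans (Set.ncard_le_ncard h2 (Set.toFinite _))
    have hz := hrmv P T z hSt hUn hs
    rcases Nat.lt_or_ge z 3 with hz3 | hz3
    · rcases Nat.lt_or_ge z 2 with hz2 | hz2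
      · omega
      · have h2 : z = 2 := by omega
        subst h2
        exact hEXZ E K M N κ s t P X T hC hMx hSt hUn hs
    · by_contra hcon
      push Not at hcon
      set h : ℕ := (T \ Sta M N κ P X T).ncard with hh
      have hun : ∀ T', Rc M N κ P X T T' → (Un κ X T').ncard = (Un κ X T).ncard := by
        intro T' hT'
        obtain ⟨-, -, -, -, -, -, h7⟩ := hRCH E K M N κ s t P X T T' hC hMx hSt hT'
        exact h7
      have hpos : 0 < (Un κ X T).ncard := (Set.ncard_pos (Set.toFinite _)).2 hUn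
      have hunN : ∀ T', Rc M N κ P X T T' → (Un κ X T').Nonempty := by
        intro T' hT'
        rw [← Set.ncard_pos (Set.toFinite _), hun T' hT']
        exact hpos
      obtain ⟨Q, T', hQ1, hQ2, hQ3, hQ4, hQ5, hQ6, hQ7⟩ :=
        hFRJ E K M N κ s t P X T (h + 2 - z) hC hMx hSt (by
          intro i P' T' hi hP hP' hSt' hR'
          have hN' := hunN T' hR'
          have h1 : t + P'.ncard + (z - i) ≤ s := by omega
          rcases Nat.eq_zero_or_pos i with h0 | h0
          · have h2 := hrmv P' T' (z - i) hSt' hN' h1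
            omega
          · have h2 : 3 * (z - i) / 2 ≤ (T' \ Sta M N κ P' X T').ncard :=
              ih (z - i) (by omega) P' T' hSt' hN' h1
            omega)
      have hone := hONE E K M N κ s t P X T Q T' z hC hMx hSt hUn hs hQ1 hQ3 hQ4 hQ5 hQ6 hQ7
        (by rw [hQ2, ← hh]; omega)
      have hp1 := hPLC E K M N κ s t P X T hC hMx hSt
      have hp2 := hPLC E K M N κ s t (P ∪ Q) X T' hC hMx hQ5
      have hcard : (P ∪ Q).ncard = P.ncard + (h + 2 - z) := by
        rw [Set.ncard_union_eq hQ3 (Set.toFinite _) (Set.toFinite _), hQ2]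
      have h3 : 3 * (z - (h + 2 - z)) / 2 ≤ (T' \ Sta M N κ (P ∪ Q) X T').ncard :=
        ih (z - (h + 2 - z)) (by omega) (P ∪ Q) T' hQ5 (hunN T' hQ4) (by omega)
      have h4 := hun T' hQ4
      rw [← hh] at hp1
      omega

end Pool.Agent.RCM.H16
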